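import Pool.Agent.R644.NI.Sqs

/-!
The non-intersection probability `P_n = a_{2n} / a_n²` of two `n`-step self-avoiding walks on the
square, the triangular and the honeycomb lattice: a power law (or bounds of this form) for one `n` in
each interval `[m, m + δ √m]` gives this power law for `P_n` and for `a_n` in the mean over the
lengths.
-/

set_option autoImplicit false

namespace Pool.Agent.Results.MP_8c6f77_pr.MeanOverLengths

open Filter Topology

/-- the three lattices -/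
inductive Lattice where
  | square
  | triangular
  | honeycomb

/-- adjacency; the triangular lattice in a basis of unit vectors with angle `π/3`, the honeycomb
lattice as a brick wall -/
def Adj : Lattice → ℤ × ℤ → ℤ × ℤ → Prop
  | .square => fun p q => |p.1 - q.1| + |p.2 - q.2| = 1
  | .triangular => fun p q =>
      q - p ∈ ({(1, 0), (-1, 0), (0, 1), (0, -1), (1, -1), (-1, 1)} : Set (ℤ × ℤ))
  | .honeycomb => fun p q =>
      q - p = (1, 0) ∨ q - p = (-1, 0) ∨
      (q - p = (0, 1) ∧ Even (p.1 + p.2)) ∨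
      (q - p = (0, -1) ∧ Even (q.1 + q.2))

/-- the number of `n`-step self-avoiding walks from the origin -/
noncomputable def a (L : Lattice) (n : ℕ) : ℕ :=
  Set.ncard {f : Fin (n + 1) → ℤ × ℤ | f 0 = 0 ∧ Function.Injective f ∧
    ∀ i : Fin n, Adj L (f i.castSucc) (f i.succ)}

/-- the connective constant -/
noncomputable def mu (L : Lattice) : ℝ :=
  ⨅ n : {n : ℕ // 1 ≤ n}, ((a L n.1 : ℝ) ^ ((1 : ℝ) / (n.1 : ℝ)))

/-- the non-intersection probability of two independent `n`-step walks, `a_{2n} / a_n²` -/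
noncomputable def P (L : Lattice) (n : ℕ) : ℝ := (a L (2 * n) : ℝ) / (a L n : ℝ) ^ 2

/-- the normalised non-intersection probability `P_n n^α` -/
noncomputable def Pα (L : Lattice) (α : ℝ) (n : ℕ) : ℝ := P L n * (n : ℝ) ^ α

/-- the normalised number of walks `a_n / (μ^n n^α)` -/
noncomputable def Aα (L : Lattice) (α : ℝ) (n : ℕ) : ℝ := (a L n : ℝ) / (mu L ^ n * (n : ℝ) ^ α)

/-- the mean of `F` over the numbers `n = 2 k + p` with `N ≤ k < 2 N` -/
noncomputable def mean (p N : ℕ) (F : ℕ → ℝ) : ℝ :=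
  (∑ k ∈ Finset.Ico N (2 * N), F (2 * k + p)) / N

/-- the distance of `log x` to the interval `[log u, log v]` -/
noncomputable def dist (u v x : ℝ) : ℝ :=
  max 0 (Real.log u - Real.log x) + max 0 (Real.log x - Real.log v)

/-- for all large `m` there is `k` in `[m, m + δ √m]` with `u ≤ F (2 k + p) ≤ v` -/
def Net (p : ℕ) (δ u v : ℝ) (F : ℕ → ℝ) : Prop :=
  ∀ᶠ m : ℕ in atTop, ∃ k : ℕ, m ≤ k ∧ (k : ℝ) ≤ m + δ * √(m : ℝ) ∧
    u ≤ F (2 * k + p) ∧ F (2 * k + p) ≤ v

open Pool.Agent.R956 in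
theorem facts (L : Lattice) : ∃ K β : ℝ,
    Pool.Agent.Y943.SL.Wk (fun n => (a L n : ℝ)) (mu L) ∧
    V1.Sq (fun n => (a L n : ℝ) / mu L ^ n) K β := by
  cases L with
  | square =>
    obtain ⟨h0, h1, h2, K, h⟩ := V2.sqr (a .square) (fun n => rfl) (mu .square) rfl
    exact ⟨K, 3 / mu .square,
      (Pool.Agent.Y943.SL.wk_sq (a .square) (fun n => rfl) (mu .square) rfl).1, h⟩
  | triangular =>
    obtain ⟨K, h⟩ := V2.tri (a .triangular) (fun n => rfl) (mu .triangular) rfl
    exact ⟨K, 1,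
      (Pool.Agent.Y943.SL.wk_tri (a .triangular) (fun n => rfl) (mu .triangular) rfl).1, h⟩
  | honeycomb =>
    obtain ⟨h0, h1, h2, K, h⟩ := V2.hex (a .honeycomb) (fun n => rfl) (mu .honeycomb) rfl
    exact ⟨K, 2 / mu .honeycomb,
      (Pool.Agent.Y943.SL.wk_hex (a .honeycomb) (fun n => rfl) (mu .honeycomb) rfl).1, h⟩

open Pool.Agent.R644.NI

lemma apos (L : Lattice) (n : ℕ) : (0 : ℝ) < a L n := by
  obtain ⟨K, β, W, -⟩ := facts L
  exact W.cpos n

lemma mupos (L : Lattice) : 0 < mu L := by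
  obtain ⟨K, β, W, -⟩ := facts L
  exact W.hμ

lemma log_Pα (L : Lattice) (α : ℝ) (p : ℕ) {k : ℕ} (hk : 1 ≤ k) :
    0 < Pα L α (2 * k + p) ∧
    Real.log (Pα L α (2 * k + p)) = LL (fun n => (a L n : ℝ) / mu L ^ n) α p k := by
  have h1 := apos L (2 * k + p)
  have h2 := apos L (2 * (2 * k + p))
  have hμ := mupos L
  have hn : (0 : ℝ) < ((2 * k + p : ℕ) : ℝ) := by exact_mod_cast (show 0 < 2 * k + p by omega)
  have hP : 0 < P L (2 * k + p) := by unfold P; positivity
  refine ⟨mul_pos hP (Real.rpow_pos_of_pos hn _), ?_⟩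
  unfold Pα LL
  rw [Real.log_mul hP.ne' (Real.rpow_pos_of_pos hn _).ne', Real.log_rpow hn]
  unfold P
  rw [Real.log_div h2.ne' (by positivity), Real.log_pow]
  simp only
  rw [Real.log_div h2.ne' (by positivity), Real.log_div h1.ne' (by positivity), Real.log_pow,
    Real.log_pow]
  push_cast
  ring

lemma log_Aα (L : Lattice) (α : ℝ) {k : ℕ} (hk : 1 ≤ k) :
    0 < Aα L α (2 * k + 0) ∧
    Real.log (Aα L α (2 * k + 0)) = GG (fun n => (a L n : ℝ) / mu L ^ n) α k := by
  have h1 := apos L (2 * k)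
  have hμ := mupos L
  have hn : (0 : ℝ) < ((2 * k : ℕ) : ℝ) := by exact_mod_cast (show 0 < 2 * k by omega)
  have hr := Real.rpow_pos_of_pos hn α
  unfold Aα GG
  simp only [add_zero]
  refine ⟨by positivity, ?_⟩
  rw [Real.log_div h1.ne' (by positivity), Real.log_mul (by positivity) hr.ne', Real.log_rpow hn,
    Real.log_div h1.ne' (by positivity)]
  ring

/-- the means of the distances -/
theorem key (L : Lattice) (α : ℝ) (p : ℕ) (hp : p ≤ 1) : ∃ C : ℝ, 0 < C ∧ ∀ δ u v : ℝ, 0 < δ →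
    0 < u → u ≤ v → Net p δ u v (Pα L α) →
    (∀ᶠ N : ℕ in atTop, mean p N (fun n => dist u v (Pα L α n)) ≤ C * δ ^ 2) ∧
    (p = 0 → ∀ᶠ N : ℕ in atTop,
      mean p N (fun n => dist (2 ^ α / v) (2 ^ α / u) (Aα L α n)) ≤ C * δ ^ 2) := by
  obtain ⟨K, β, W, S⟩ := facts L
  obtain ⟨C, hC0, hC⟩ := meanP W S hp α
  refine ⟨4 * C, by positivity, fun δ u v hδ hu huv hN => ?_⟩
  have hv : 0 < v := hu.trans_le huv
  obtain ⟨h1, h2⟩ := hC {k | 1 ≤ k → u ≤ Pα L α (2 * k + p) ∧ Pα L α (2 * k + p) ≤ v} δ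
    (Real.log u) (Real.log v) hδ (by
      filter_upwards [hN] with m hm
      obtain ⟨k, hk1, hk2, hk3, hk4⟩ := hm
      exact ⟨k, fun _ => ⟨hk3, hk4⟩, hk1, hk2⟩) (by
      filter_upwards [eventually_ge_atTop 1] with k hk hkT
      obtain ⟨g1, g2⟩ := hkT hk
      obtain ⟨g3, g4⟩ := log_Pα L α p hk
      rw [← g4]
      exact ⟨Real.log_le_log hu g1, Real.log_le_log g3 g2⟩)
  refine ⟨?_, ?_⟩
  · filter_upwards [h1, h2, eventually_ge_atTop 1] with N n1 n2 hN1
    have hN0 : (0 : ℝ) < N := by exact_mod_cast hN1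
    unfold mean dist
    rw [div_le_iff₀ hN0, Finset.sum_add_distrib]
    have e1 : ∑ k ∈ Finset.Ico N (2 * N), max 0 (Real.log u - Real.log (Pα L α (2 * k + p))) =
        ∑ k ∈ Finset.Ico N (2 * N),
          max 0 (Real.log u - LL (fun n => (a L n : ℝ) / mu L ^ n) α p k) := by
      refine Finset.sum_congr rfl fun k hk => ?_
      rw [(log_Pα L α p (by have := Finset.mem_Ico.1 hk; omega)).2]
    have e2 : ∑ k ∈ Finset.Ico N (2 * N), max 0 (Real.log (Pα L α (2 * k + p)) - Real.log v) =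
        ∑ k ∈ Finset.Ico N (2 * N),
          max 0 (LL (fun n => (a L n : ℝ) / mu L ^ n) α p k - Real.log v) := by
      refine Finset.sum_congr rfl fun k hk => ?_
      rw [(log_Pα L α p (by have := Finset.mem_Ico.1 hk; omega)).2]
    rw [e1, e2]
    have : 0 ≤ C * δ ^ 2 * N := by positivity
    linarith
  · intro hp0
    subst hp0
    obtain ⟨m1, m2⟩ := meanG W S α (e := C * δ ^ 2) (by positivity)
    have m3 := m1 (Real.log u) h2
    have m4 := m2 (Real.log v) h1
    have l1 : Real.log (2 ^ α / u) = α * Real.log 2 - Real.log u := by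
      rw [Real.log_div (by positivity) hu.ne', Real.log_rpow (by norm_num)]
    have l2 : Real.log (2 ^ α / v) = α * Real.log 2 - Real.log v := by
      rw [Real.log_div (by positivity) hv.ne', Real.log_rpow (by norm_num)]
    filter_upwards [m3, m4, eventually_ge_atTop 1] with N n1 n2 hN1
    have hN0 : (0 : ℝ) < N := by exact_mod_cast hN1
    unfold mean dist
    rw [div_le_iff₀ hN0, Finset.sum_add_distrib, l1, l2]
    have e1 : ∑ k ∈ Finset.Ico N (2 * N),
        max 0 (α * Real.log 2 - Real.log v - Real.log (Aα L α (2 * k + 0))) =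
        ∑ k ∈ Finset.Ico N (2 * N),
          max 0 ((α * Real.log 2 - Real.log v) - GG (fun n => (a L n : ℝ) / mu L ^ n) α k) := by
      refine Finset.sum_congr rfl fun k hk => ?_
      rw [(log_Aα L α (by have := Finset.mem_Ico.1 hk; omega)).2]
    have e2 : ∑ k ∈ Finset.Ico N (2 * N),
        max 0 (Real.log (Aα L α (2 * k + 0)) - (α * Real.log 2 - Real.log u)) =
        ∑ k ∈ Finset.Ico N (2 * N),
          max 0 (GG (fun n => (a L n : ℝ) / mu L ^ n) α k - (α * Real.log 2 - Real.log u)) := by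
      refine Finset.sum_congr rfl fun k hk => ?_
      rw [(log_Aα L α (by have := Finset.mem_Ico.1 hk; omega)).2]
    rw [e1, e2]
    have : 0 ≤ C * δ ^ 2 * N := by positivity
    linarith

/-- closeness from the distance to a short interval -/
lemma abs_le_dist {B η x : ℝ} (hB : 0 < B) (hx : 0 < x) :
    |Real.log (x / B)| ≤ η + dist (B * Real.exp (-η)) (B * Real.exp η) x := by
  unfold dist
  rw [Real.log_div hx.ne' hB.ne', Real.log_mul hB.ne' (Real.exp_pos _).ne',
    Real.log_mul hB.ne' (Real.exp_pos _).ne', Real.log_exp, Real.log_exp, abs_le]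
  have m1 := le_max_left 0 (Real.log B + -η - Real.log x)
  have m2 := le_max_right 0 (Real.log B + -η - Real.log x)
  have m3 := le_max_left 0 (Real.log x - (Real.log B + η))
  have m4 := le_max_right 0 (Real.log x - (Real.log B + η))
  constructor <;> linarith

/-- **Theorem.** Let `a_n` be the number of `n`-step self-avoiding walks from the origin on the
square, the triangular or the honeycomb lattice, `μ = inf a_n^(1/n)`, `P_n = a_{2n} / a_n²` the
non-intersection probability, `α` real and `p = 0` or `p = 1`; means are over the numbers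
`n = 2 k + p`, `N ≤ k < 2 N`. (1) There is `C` such that for all `δ > 0` and `0 < u ≤ v`: if for all
large `m` there is `k` in `[m, m + δ √m]` with `u ≤ P_n n^α ≤ v` for `n = 2 k + p`, then for all large
`N` the mean of the distance of `log (P_n n^α)` to `[log u, log v]` is at most `C δ²`; and for
`p = 0` the mean of the distance of `log (a_n / (μ^n n^α))` to `[log (2^α / v), log (2^α / u)]` is at
most `C δ²`. (2) Let `B > 0`. If for all `ε, δ > 0` and all large `m` there is `k` in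
`[m, m + δ √m]` with `|P_n n^α - B| ≤ ε` for `n = 2 k + p`, then the mean of `|log (P_n n^α / B)|`
tends to `0` as `N → ∞`, and for `p = 0` the mean of `|log (a_n / (μ^n n^α) / (2^α / B))|` tends to
`0`. -/
theorem result (L : Lattice) (α : ℝ) (p : ℕ) (hp : p ≤ 1) :
    (∃ C : ℝ, 0 < C ∧ ∀ δ u v : ℝ, 0 < δ → 0 < u → u ≤ v → Net p δ u v (Pα L α) →
      (∀ᶠ N : ℕ in atTop, mean p N (fun n => dist u v (Pα L α n)) ≤ C * δ ^ 2) ∧
      (p = 0 → ∀ᶠ N : ℕ in atTop,
        mean p N (fun n => dist (2 ^ α / v) (2 ^ α / u) (Aα L α n)) ≤ C * δ ^ 2)) ∧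
    (∀ B : ℝ, 0 < B →
      (∀ ε δ : ℝ, 0 < ε → 0 < δ → Net p δ (B - ε) (B + ε) (Pα L α)) →
      Tendsto (fun N => mean p N (fun n => |Real.log (Pα L α n / B)|)) atTop (𝓝 0) ∧
      (p = 0 → Tendsto (fun N => mean p N (fun n => |Real.log (Aα L α n / (2 ^ α / B))|))
        atTop (𝓝 0))) := by
  obtain ⟨C, hC0, hC⟩ := key L α p hp
  refine ⟨⟨C, hC0, hC⟩, fun B hB hnet => ?_⟩
  -- the bounds for given accuracy
  have hall : ∀ ρ : ℝ, 0 < ρ → ∃ δ : ℝ, 0 < δ ∧ C * δ ^ 2 ≤ ρ / 2 ∧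
      Net p δ (B * Real.exp (-(ρ / 4))) (B * Real.exp (ρ / 4)) (Pα L α) := by
    intro ρ hρ
    obtain ⟨δ, hδ⟩ : ∃ δ, δ = √(ρ / (2 * C)) := ⟨_, rfl⟩
    have hδ0 : 0 < δ := by rw [hδ]; exact Real.sqrt_pos.2 (by positivity)
    refine ⟨δ, hδ0, ?_, ?_⟩
    · rw [hδ, Real.sq_sqrt (by positivity)]
      refine le_of_eq ?_
      field_simp
    · have q1 : 0 < B * Real.exp (ρ / 4) - B := by
        have := Real.add_one_lt_exp (show ρ / 4 ≠ 0 by positivity)
        nlinarith
      have q2 : 0 < B - B * Real.exp (-(ρ / 4)) := by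
        have : Real.exp (-(ρ / 4)) < 1 := by rw [Real.exp_lt_one_iff]; linarith
        nlinarith
      obtain ⟨ε, hε⟩ : ∃ ε, ε = min (B * Real.exp (ρ / 4) - B) (B - B * Real.exp (-(ρ / 4))) :=
        ⟨_, rfl⟩
      have hε0 : 0 < ε := by rw [hε]; exact lt_min q1 q2
      have e1 : ε ≤ B * Real.exp (ρ / 4) - B := by rw [hε]; exact min_le_left _ _
      have e2 : ε ≤ B - B * Real.exp (-(ρ / 4)) := by rw [hε]; exact min_le_right _ _
      have h1 := hnet ε δ hε0 hδ0
      unfold Net at h1 ⊢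
      filter_upwards [h1] with m hm
      obtain ⟨k, k1, k2, k3, k4⟩ := hm
      exact ⟨k, k1, k2, by linarith, by linarith⟩
  have hnn : ∀ (N : ℕ) (F : ℕ → ℝ), 0 ≤ mean p N (fun n => |F n|) := fun N F =>
    div_nonneg (Finset.sum_nonneg fun k _ => abs_nonneg _) (Nat.cast_nonneg _)
  -- from the distance to the absolute value
  have hmean : ∀ (F : ℕ → ℝ) (B' ρ : ℝ) (N : ℕ), 0 < B' → 0 < ρ → 1 ≤ N →
      (∀ k, 1 ≤ k → 0 < F (2 * k + p)) →
      mean p N (fun n => dist (B' * Real.exp (-(ρ / 4))) (B' * Real.exp (ρ / 4)) (F n)) ≤ ρ / 2 →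
      mean p N (fun n => |Real.log (F n / B')|) < ρ := by
    intro F B' ρ N hB' hρ hN1 hF hd
    have hN0 : (0 : ℝ) < N := by exact_mod_cast hN1
    unfold mean at hd ⊢
    rw [div_le_iff₀ hN0] at hd
    rw [div_lt_iff₀ hN0]
    have h1 : ∑ k ∈ Finset.Ico N (2 * N), |Real.log (F (2 * k + p) / B')| ≤
        ∑ k ∈ Finset.Ico N (2 * N), (ρ / 4 +
          dist (B' * Real.exp (-(ρ / 4))) (B' * Real.exp (ρ / 4)) (F (2 * k + p))) :=
      Finset.sum_le_sum fun k hk => abs_le_dist hB'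
        (hF k (by have := Finset.mem_Ico.1 hk; omega))
    rw [Finset.sum_add_distrib, Finset.sum_const, Nat.card_Ico, nsmul_eq_mul,
      show 2 * N - N = N by omega] at h1
    have : 0 < ρ * N := by positivity
    nlinarith
  refine ⟨?_, ?_⟩
  · rw [Metric.tendsto_atTop]
    intro ρ hρ
    obtain ⟨δ, hδ0, hδ1, hn⟩ := hall ρ hρ
    obtain ⟨h1, -⟩ := hC δ _ _ hδ0 (by positivity) (by
      apply mul_le_mul_of_nonneg_left _ hB.le
      apply Real.exp_le_exp.2
      linarith) hn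
    obtain ⟨N0, hN0⟩ := eventually_atTop.1 (h1.and (eventually_ge_atTop 1))
    refine ⟨N0, fun N hN => ?_⟩
    obtain ⟨a1, a2⟩ := hN0 N hN
    rw [Real.dist_eq, sub_zero, abs_of_nonneg (hnn N _)]
    exact hmean _ B ρ N hB hρ a2 (fun k hk => (log_Pα L α p hk).1) (a1.trans hδ1)
  · intro hp0
    rw [Metric.tendsto_atTop]
    intro ρ hρ
    obtain ⟨δ, hδ0, hδ1, hn⟩ := hall ρ hρ
    obtain ⟨-, h1⟩ := hC δ _ _ hδ0 (by positivity) (by
      apply mul_le_mul_of_nonneg_left _ hB.le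
      apply Real.exp_le_exp.2
      linarith) hn
    obtain ⟨N0, hN0⟩ := eventually_atTop.1 ((h1 hp0).and (eventually_ge_atTop 1))
    refine ⟨N0, fun N hN => ?_⟩
    obtain ⟨a1, a2⟩ := hN0 N hN
    rw [Real.dist_eq, sub_zero, abs_of_nonneg (hnn N _)]
    have e1 : (2 : ℝ) ^ α / (B * Real.exp (ρ / 4)) = 2 ^ α / B * Real.exp (-(ρ / 4)) := by
      rw [Real.exp_neg]
      field_simp
    have e2 : (2 : ℝ) ^ α / (B * Real.exp (-(ρ / 4))) = 2 ^ α / B * Real.exp (ρ / 4) := by
      rw [Real.exp_neg]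
      field_simp
    rw [e1, e2] at a1
    exact hmean _ (2 ^ α / B) ρ N (by positivity) hρ a2 (fun k hk => by
      subst hp0
      exact (log_Aα L α hk).1) (a1.trans hδ1)

end Pool.Agent.Results.MP_8c6f77_pr.MeanOverLengths
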